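import Mathlib
import Pool.Agent.Lib.MP_699d82_al.Final
import Pool.Agent.Lib.KOd.PowRoots

/-! Every invertible real matrix which meets the necessary conditions of the Spectral Conjecture is a
nonsingular part of primitive matrices of all sufficiently large sizes. -/

set_option autoImplicit false

namespace Pool.Agent.Results.MP_699d82_al.PrimitiveNonsingularPart

open Matrix Polynomial

universe u v w

/-- The multiset of the nonzero complex eigenvalues of the real matrix `B`, with algebraic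
multiplicity. -/
noncomputable def nonzeroEigenvalues {k : Type u} [Fintype k] [DecidableEq k]
    (B : Matrix k k ℝ) : Multiset ℂ :=
  (B.map (algebraMap ℝ ℂ)).charpoly.roots.filter (fun z => z ≠ 0)

/-- `tr(Λ^n) = ∑ λ^n`, the sum over the members `λ` of `Λ` with multiplicity. -/
noncomputable def powerTrace (Λ : Multiset ℂ) (n : ℕ) : ℂ := (Λ.map fun l => l ^ n).sum

/-- The necessary conditions of the Spectral Conjecture over `ℝ` for a finite multiset of complex
numbers: the polynomial `∏ (t - λ)` has real coefficients, some member `r` is a positive real number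
larger than the modulus of every other member (in particular `r` has multiplicity one), the numbers
`tr(Λ^n)`, `n ≥ 1`, which are real by the first condition, are nonnegative, and if `tr(Λ^n)` is
positive then so are all `tr(Λ^(n k))`, `k ≥ 1`. -/
structure NecessaryConditions (Λ : Multiset ℂ) : Prop where
  real : ∃ f : ℝ[X], f.map (algebraMap ℝ ℂ) = (Λ.map fun l => X - C l).prod
  perron : ∃ r : ℝ, 0 < r ∧ (r : ℂ) ∈ Λ ∧ ∀ z ∈ Λ.erase (r : ℂ), ‖z‖ < r
  trace_nonneg : ∀ n : ℕ, 1 ≤ n → 0 ≤ (powerTrace Λ n).re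
  trace_pos : ∀ n k : ℕ, 1 ≤ n → 1 ≤ k → 0 < (powerTrace Λ n).re →
    0 < (powerTrace Λ (n * k)).re

/-- `B` is a nonsingular part of the square matrix `A`: `B` is invertible and, for some nilpotent
matrix `N`, `A` is similar over `ℝ` to the block-diagonal matrix `B ⊕ N`. -/
def IsNonsingularPart {k : Type u} [Fintype k] [DecidableEq k] {n : Type v} [Fintype n]
    [DecidableEq n] (B : Matrix k k ℝ) (A : Matrix n n ℝ) : Prop :=
  IsUnit B ∧ ∃ (p : ℕ) (N : Matrix (Fin p) (Fin p) ℝ) (P : Matrix (k ⊕ Fin p) n ℝ)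
    (Q : Matrix n (k ⊕ Fin p) ℝ), IsNilpotent N ∧ P * Q = 1 ∧ Q * P = 1 ∧
      P * A * Q = Matrix.fromBlocks B 0 0 N

/-! ### Shift equivalence -/

section

variable {k : Type u} [Fintype k] [DecidableEq k] {n : Type v} [Fintype n] [DecidableEq n]
  {m : Type w} [Fintype m] [DecidableEq m]

private def SE (B : Matrix k k ℝ) (A : Matrix n n ℝ) : Prop :=
  ∃ (l : ℕ) (R : Matrix k n ℝ) (S : Matrix n k ℝ), B * R = R * A ∧ R * S = B ^ l ∧ S * R = A ^ l

private lemma se_of_part {B : Matrix k k ℝ} {A : Matrix n n ℝ} (h : IsNonsingularPart B A) :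
    SE B A := by
  obtain ⟨hB, p, N, P, Q, ⟨l, hl⟩, hPQ, hQP, hA⟩ := h
  have h1 : P * A = Matrix.fromBlocks B 0 0 N * P := by
    rw [← hA, Matrix.mul_assoc (P * A), hQP, Matrix.mul_one]
  have h2 : A = Q * Matrix.fromBlocks B 0 0 N * P := by
    rw [← hA]
    calc A = (Q * P) * A * (Q * P) := by rw [hQP, Matrix.one_mul, Matrix.mul_one]
      _ = Q * (P * A * Q) * P := by simp only [Matrix.mul_assoc]
  have h3 : ∀ j : ℕ, A ^ j = Q * (Matrix.fromBlocks B 0 0 N) ^ j * P := by
    intro j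
    induction j with
    | zero => rw [pow_zero, pow_zero, Matrix.mul_one, hQP]
    | succ j ih =>
      rw [pow_succ, ih, pow_succ]
      conv_lhs => rw [Matrix.mul_assoc, h1]
      simp only [Matrix.mul_assoc]
  have h4 : (Matrix.fromBlocks B 0 0 N) ^ l = Matrix.fromBlocks (B ^ l) 0 0 0 := by
    have h5 : ∀ j : ℕ, (Matrix.fromBlocks B 0 0 N) ^ j = Matrix.fromBlocks (B ^ j) 0 0 (N ^ j) := by
      intro j
      induction j with
      | zero => simp [Matrix.fromBlocks_one]
      | succ j ih => rw [pow_succ, ih, Matrix.fromBlocks_multiply]; simp [pow_succ]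
    rw [h5, hl]
  refine ⟨l, P.submatrix Sum.inl id, Q.submatrix id Sum.inl * B ^ l, ?_, ?_, ?_⟩
  · have h5 := congrArg (fun M => M.submatrix Sum.inl id) h1
    ext i j
    have h6 := congrFun (congrFun h5 i) j
    simp only [Matrix.submatrix_apply, Matrix.mul_apply, Fintype.sum_sum_type,
      Matrix.fromBlocks_apply₁₁, Matrix.fromBlocks_apply₁₂, Matrix.zero_apply, zero_mul,
      Finset.sum_const_zero, add_zero, id] at h6 ⊢
    exact h6.symm
  · rw [← Matrix.mul_assoc]
    have h5 : P.submatrix Sum.inl id * Q.submatrix id Sum.inl = (1 : Matrix k k ℝ) := by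
      ext i j
      have h6 := congrFun (congrFun hPQ (Sum.inl i)) (Sum.inl j)
      simp only [Matrix.mul_apply, Matrix.submatrix_apply, id] at h6 ⊢
      rw [h6]
      simp [Matrix.one_apply]
    rw [h5, Matrix.one_mul]
  · rw [h3 l, h4]
    ext i j
    simp only [Matrix.mul_apply, Matrix.submatrix_apply, id, Fintype.sum_sum_type,
      Matrix.fromBlocks_apply₁₁, Matrix.fromBlocks_apply₁₂, Matrix.fromBlocks_apply₂₁,
      Matrix.fromBlocks_apply₂₂, Matrix.zero_apply, mul_zero, Finset.sum_const_zero, add_zero,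
      zero_mul]

private lemma part_of_fit {q : ℕ} {B : Matrix (Fin q) (Fin q) ℝ} {A : Matrix m m ℝ}
    (hB : IsUnit B) (J : (Fin q → ℝ) →ₗ[ℝ] (m → ℝ)) (hJ : Function.Injective J)
    (hJT : ∀ y, J (y ᵥ* B) = J y ᵥ* A)
    (hw : ∀ w : m → ℝ, ∃ (y : Fin q → ℝ) (N : ℕ), (w - J y) ᵥ* A ^ N = 0) :
    IsNonsingularPart B A := by
  obtain ⟨p, e, N, P, P', hN, hPP, hA⟩ := Pool.Agent.Lib.MP699d82.fitting A B
    ((Matrix.isUnit_iff_isUnit_det B).1 hB) J hJ hJT hw
  have hP'P : P' * P = 1 := mul_eq_one_comm.1 hPP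
  refine ⟨hB, p, N, P.submatrix id e, P'.submatrix e id, hN, ?_, ?_, ?_⟩
  · rw [Matrix.submatrix_mul_equiv, hPP]
    exact Matrix.submatrix_one id Function.injective_id
  · have h4 : P'.submatrix e id * P.submatrix id e = (P' * P).submatrix e e := by
      ext i j
      simp [Matrix.mul_apply]
    rw [h4, hP'P]
    exact Matrix.submatrix_one e e.injective
  · have h4 : A = (Matrix.reindex e e A).submatrix e e := by
      rw [Matrix.reindex_apply, Matrix.submatrix_submatrix, e.symm_comp_self,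
        Matrix.submatrix_id_id]
    conv_lhs => rw [h4]
    rw [Matrix.submatrix_mul_equiv, Matrix.submatrix_mul_equiv, hA, Matrix.submatrix_id_id]

private lemma part_of_se_fin {q : ℕ} {B : Matrix (Fin q) (Fin q) ℝ} {A : Matrix m m ℝ}
    (hB : IsUnit B) (h : SE B A) : IsNonsingularPart B A := by
  obtain ⟨l, R, S, h1, h2, h3⟩ := h
  have hdet : IsUnit B.det := (Matrix.isUnit_iff_isUnit_det B).1 hB
  have hinv : B ^ l * (B ^ l)⁻¹ = 1 := Matrix.mul_nonsing_inv _ (by
    rw [Matrix.det_pow]; exact hdet.pow l)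
  have hinv' : (B ^ l)⁻¹ * B ^ l = 1 := Matrix.nonsing_inv_mul _ (by
    rw [Matrix.det_pow]; exact hdet.pow l)
  have hRA : ∀ j : ℕ, R * A ^ j = B ^ j * R := by
    intro j
    induction j with
    | zero => rw [pow_zero, pow_zero, Matrix.mul_one, Matrix.one_mul]
    | succ j ih =>
      rw [pow_succ, ← Matrix.mul_assoc, ih, Matrix.mul_assoc, ← h1, ← Matrix.mul_assoc, ← pow_succ]
  refine part_of_fit hB (R.vecMulLinear : (Fin q → ℝ) →ₗ[ℝ] (m → ℝ)) ?_ ?_ ?_
  · intro y z hyz
    have h4 : y ᵥ* R = z ᵥ* R := hyz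
    have h5 : (y ᵥ* R) ᵥ* (S * (B ^ l)⁻¹) = (z ᵥ* R) ᵥ* (S * (B ^ l)⁻¹) := by rw [h4]
    rw [Matrix.vecMul_vecMul, Matrix.vecMul_vecMul, ← Matrix.mul_assoc, h2, hinv,
      Matrix.vecMul_one, Matrix.vecMul_one] at h5
    exact h5
  · intro y
    show (y ᵥ* B) ᵥ* R = (y ᵥ* R) ᵥ* A
    rw [Matrix.vecMul_vecMul, Matrix.vecMul_vecMul, h1]
  · intro w
    refine ⟨w ᵥ* (S * (B ^ l)⁻¹), l, ?_⟩
    show (w - (w ᵥ* (S * (B ^ l)⁻¹)) ᵥ* R) ᵥ* A ^ l = 0
    rw [Matrix.sub_vecMul, Matrix.vecMul_vecMul, Matrix.vecMul_vecMul, hRA,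
      Matrix.mul_assoc S, ← Matrix.mul_assoc _ (B ^ l), hinv', Matrix.one_mul, h3, sub_self]

private lemma part_of_reindex {q : ℕ} {B : Matrix k k ℝ} {A : Matrix n n ℝ} (e : k ≃ Fin q)
    (h : IsNonsingularPart (Matrix.reindex e e B) A) : IsNonsingularPart B A := by
  obtain ⟨hB, p, N, P, Q, hN, hPQ, hQP, hA⟩ := h
  have hB' : IsUnit B := by
    rw [Matrix.isUnit_iff_isUnit_det] at hB ⊢
    rwa [Matrix.det_reindex_self] at hB
  set f : k ⊕ Fin p ≃ Fin q ⊕ Fin p := Equiv.sumCongr e (Equiv.refl _) with hf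
  refine ⟨hB', p, N, P.submatrix f id, Q.submatrix id f, hN, ?_, ?_, ?_⟩
  · have h4 : P.submatrix f id * Q.submatrix id f = (P * Q).submatrix f f := by
      ext i j
      simp [Matrix.mul_apply]
    rw [h4, hPQ]
    exact Matrix.submatrix_one f f.injective
  · rw [Matrix.submatrix_mul_equiv, hQP]
    exact Matrix.submatrix_one id Function.injective_id
  · have h4 : P.submatrix f id * A * Q.submatrix id f = (P * A * Q).submatrix f f := by
      ext i j
      simp [Matrix.mul_apply]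
    rw [h4, hA]
    ext i j
    rcases i with i | i <;> rcases j with j | j <;> simp [hf]

private lemma part_of_se {B : Matrix k k ℝ} {A : Matrix n n ℝ} (hB : IsUnit B) (h : SE B A) :
    IsNonsingularPart B A := by
  set e := Fintype.equivFin k with he
  refine part_of_reindex e (part_of_se_fin ?_ ?_)
  · rw [Matrix.isUnit_iff_isUnit_det] at hB ⊢
    rwa [Matrix.det_reindex_self]
  · obtain ⟨l, R, S, h1, h2, h3⟩ := h
    refine ⟨l, R.submatrix e.symm id, S.submatrix id e.symm, ?_, ?_, ?_⟩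
    · have h4 : (Matrix.reindex e e B) * R.submatrix e.symm id = (B * R).submatrix e.symm id := by
        rw [Matrix.reindex_apply, Matrix.submatrix_mul_equiv]
      have h5 : R.submatrix e.symm id * A = (R * A).submatrix e.symm id := by
        ext i j
        simp [Matrix.mul_apply]
      rw [h4, h5, h1]
    · have h4 : R.submatrix e.symm id * S.submatrix id e.symm = (R * S).submatrix e.symm e.symm := by
        ext i j
        simp [Matrix.mul_apply]
      rw [h4, h2, Matrix.reindex_apply]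
      have h6 := map_pow (Matrix.reindexAlgEquiv ℝ ℝ e) B l
      simpa [Matrix.coe_reindexAlgEquiv, Matrix.reindex_apply] using h6
    · rw [Matrix.submatrix_mul_equiv, h3, Matrix.submatrix_id_id]

/-- transport along `A ↦ S A T` with `T S = 1` -/
private lemma se_split {B : Matrix k k ℝ} {A : Matrix n n ℝ} (h : SE B A) (S₁ : Matrix m n ℝ)
    (T₁ : Matrix n m ℝ) (hTS : T₁ * S₁ = 1) : SE B (S₁ * A * T₁) := by
  obtain ⟨l, R, S, h1, h2, h3⟩ := h
  have hpow : ∀ j : ℕ, (S₁ * A * T₁) ^ (j + 1) = S₁ * A ^ (j + 1) * T₁ := by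
    intro j
    induction j with
    | zero => rw [zero_add, pow_one, pow_one]
    | succ j ih =>
      rw [pow_succ, ih, pow_succ A]
      calc S₁ * A ^ (j + 1) * T₁ * (S₁ * A * T₁) = S₁ * A ^ (j + 1) * (T₁ * S₁) * A * T₁ := by
            simp only [Matrix.mul_assoc]
        _ = S₁ * (A ^ (j + 1) * A) * T₁ := by
            rw [hTS, Matrix.mul_one]; simp only [Matrix.mul_assoc]
  refine ⟨l + 1, R * T₁, S₁ * A * S, ?_, ?_, ?_⟩
  · calc B * (R * T₁) = (B * R) * T₁ := by rw [Matrix.mul_assoc]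
      _ = R * (T₁ * S₁) * A * T₁ := by rw [h1, hTS, Matrix.mul_one]
      _ = R * T₁ * (S₁ * A * T₁) := by simp only [Matrix.mul_assoc]
  · calc R * T₁ * (S₁ * A * S) = R * (T₁ * S₁) * A * S := by simp only [Matrix.mul_assoc]
      _ = (R * A) * S := by rw [hTS, Matrix.mul_one]
      _ = B * (R * S) := by rw [← h1, Matrix.mul_assoc]
      _ = B ^ (l + 1) := by rw [h2, pow_succ']
  · calc S₁ * A * S * (R * T₁) = S₁ * (A * (S * R)) * T₁ := by simp only [Matrix.mul_assoc]
      _ = S₁ * A ^ (l + 1) * T₁ := by rw [h3, ← pow_succ']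
      _ = (S₁ * A * T₁) ^ (l + 1) := (hpow l).symm

/-- state splitting along a surjection -/
private lemma split_primitive {A : Matrix n n ℝ} (hA : A.IsPrimitive) (d : m → n)
    (hd : Function.Surjective d) : ∃ (S₁ : Matrix m n ℝ) (T₁ : Matrix n m ℝ), T₁ * S₁ = 1 ∧
      (S₁ * A * T₁).IsPrimitive := by
  set c : n → ℝ := fun i => ((Finset.univ.filter fun y => d y = i).card : ℝ) with hc
  have hc0 : ∀ i, 0 < c i := by
    intro i
    obtain ⟨y, hy⟩ := hd i
    have h1 : 0 < (Finset.univ.filter fun y => d y = i).card :=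
      Finset.card_pos.2 ⟨y, by simp [hy]⟩
    simp only [hc]
    exact_mod_cast h1
  set S₁ : Matrix m n ℝ := Matrix.of fun x i => if d x = i then (1 : ℝ) else 0 with hS
  set T₁ : Matrix n m ℝ := Matrix.of fun i y => if d y = i then (c i)⁻¹ else 0 with hT
  have hTS : T₁ * S₁ = 1 := by
    ext i j
    rw [Matrix.mul_apply]
    simp only [hS, hT, Matrix.of_apply]
    by_cases hij : i = j
    · subst hij
      have h1 : ∀ y, ((if d y = i then (c i)⁻¹ else 0) * if d y = i then (1 : ℝ) else 0) =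
          if d y = i then (c i)⁻¹ else 0 := by
        intro y
        split_ifs <;> simp
      rw [Finset.sum_congr rfl fun y _ => h1 y, ← Finset.sum_filter, Finset.sum_const,
        nsmul_eq_mul, Matrix.one_apply_eq]
      exact mul_inv_cancel₀ (hc0 i).ne'
    · rw [Matrix.one_apply_ne hij]
      refine Finset.sum_eq_zero fun y _ => ?_
      by_cases h1 : d y = i
      · rw [if_neg (fun h2 => hij (h1.symm.trans h2)), mul_zero]
      · rw [if_neg h1, zero_mul]
  have hval : ∀ M : Matrix n n ℝ, ∀ x y, (S₁ * M * T₁) x y = M (d x) (d y) * (c (d y))⁻¹ := by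
    intro M x y
    rw [Matrix.mul_apply]
    have h1 : ∀ i, (S₁ * M) x i = M (d x) i := by
      intro i
      rw [Matrix.mul_apply]
      simp [hS]
    simp only [h1, hT, Matrix.of_apply]
    rw [Finset.sum_eq_single (d y)]
    · rw [if_pos rfl]
    · intro i _ hi
      rw [if_neg (fun h => hi h.symm), mul_zero]
    · intro h
      exact absurd (Finset.mem_univ _) h
  have hpow : ∀ j : ℕ, (S₁ * A * T₁) ^ (j + 1) = S₁ * A ^ (j + 1) * T₁ := by
    intro j
    induction j with
    | zero => rw [zero_add, pow_one, pow_one]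
    | succ j ih =>
      rw [pow_succ, ih, pow_succ A]
      calc S₁ * A ^ (j + 1) * T₁ * (S₁ * A * T₁) = S₁ * A ^ (j + 1) * (T₁ * S₁) * A * T₁ := by
            simp only [Matrix.mul_assoc]
        _ = S₁ * (A ^ (j + 1) * A) * T₁ := by
            rw [hTS, Matrix.mul_one]; simp only [Matrix.mul_assoc]
  refine ⟨S₁, T₁, hTS, ⟨fun x y => ?_, ?_⟩⟩
  · rw [hval]
    exact mul_nonneg (hA.nonneg _ _) (inv_nonneg.2 (hc0 _).le)
  · obtain ⟨j, hj, hpos⟩ := hA.exists_pos_pow
    obtain ⟨i, rfl⟩ : ∃ i, j = i + 1 := ⟨j - 1, by omega⟩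
    refine ⟨i + 1, hj, fun x y => ?_⟩
    rw [hpow, hval]
    exact mul_pos (hpos _ _) (inv_pos.2 (hc0 _))

/-- all larger sizes -/
private lemma all_sizes {B : Matrix k k ℝ} (hB : IsUnit B) [Nonempty n] {A : Matrix n n ℝ}
    (hA : A.IsPrimitive) (h : SE B A) (s : ℕ) (hs : Fintype.card n ≤ s) :
    ∃ A' : Matrix (Fin s) (Fin s) ℝ, A'.IsPrimitive ∧ IsNonsingularPart B A' := by
  obtain ⟨f⟩ : Nonempty (n ↪ Fin s) :=
    Function.Embedding.nonempty_of_card_le (by rwa [Fintype.card_fin])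
  obtain ⟨S₁, T₁, h1, h2⟩ := split_primitive hA (Function.invFun f)
    (Function.invFun_surjective f.injective)
  exact ⟨S₁ * A * T₁, h2, part_of_se hB (se_split h S₁ T₁ h1)⟩

end

/-! ### Existence of a nonsingular part -/

private lemma exists_part {m : Type u} [Fintype m] [DecidableEq m] (T : Matrix m m ℝ) :
    ∃ (q : ℕ) (B : Matrix (Fin q) (Fin q) ℝ), IsNonsingularPart B T := by
  classical
  set f : Module.End ℝ (m → ℝ) := T.vecMulLinear with hf
  obtain ⟨D, hD, hD1⟩ := ((LinearMap.eventually_isCompl_ker_pow_range_pow f).and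
    (Filter.eventually_ge_atTop 1)).exists
  set V := LinearMap.range (f ^ D) with hV
  have hVinv : ∀ x ∈ V, f x ∈ V := by
    rintro x ⟨y, rfl⟩
    refine ⟨f y, ?_⟩
    rw [← Module.End.mul_apply, ← pow_succ, pow_succ', Module.End.mul_apply]
  set q := Module.finrank ℝ V with hq
  set b : Module.Basis (Fin q) ℝ V := Module.finBasis ℝ V with hb
  set g : Module.End ℝ V := f.restrict hVinv with hg
  set B : Matrix (Fin q) (Fin q) ℝ := (LinearMap.toMatrix b b g)ᵀ with hB
  -- the embedding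
  set J : (Fin q → ℝ) →ₗ[ℝ] (m → ℝ) :=
    V.subtype ∘ₗ (b.equivFun.symm : (Fin q → ℝ) →ₗ[ℝ] V) with hJ
  have hJinj : Function.Injective J :=
    Subtype.val_injective.comp b.equivFun.symm.injective
  have hgB : ∀ y : Fin q → ℝ, b.equivFun.symm (y ᵥ* B) = g (b.equivFun.symm y) := by
    intro y
    apply b.equivFun.injective
    rw [LinearEquiv.apply_symm_apply, hB, Matrix.vecMul_transpose]
    have h1 := LinearMap.toMatrix_mulVec_repr b b g (b.equivFun.symm y)
    have h2 : (b.repr (b.equivFun.symm y) : Fin q → ℝ) = y := by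
      have := b.equivFun.apply_symm_apply y
      rwa [Module.Basis.equivFun_apply] at this
    rw [h2] at h1
    rw [h1, Module.Basis.equivFun_apply]
  have hJT : ∀ y, J (y ᵥ* B) = J y ᵥ* T := by
    intro y
    show ((b.equivFun.symm (y ᵥ* B) : V) : m → ℝ) = _
    rw [hgB]
    rfl
  have hker : ∀ x ∈ V, f x = 0 → x = 0 := by
    intro x hx h0
    have h1 : x ∈ LinearMap.ker (f ^ D) := by
      rw [LinearMap.mem_ker]
      obtain ⟨i, hi⟩ : ∃ i, D = i + 1 := ⟨D - 1, by omega⟩
      rw [hi, pow_succ, Module.End.mul_apply, h0, map_zero]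
    exact (Submodule.disjoint_def.1 hD.disjoint) x h1 hx
  have hBu : IsUnit B := by
    rw [← Matrix.vecMul_injective_iff_isUnit]
    have h0 : ∀ y : Fin q → ℝ, y ᵥ* B = 0 → y = 0 := by
      intro y hy
      have h1 : g (b.equivFun.symm y) = 0 := by rw [← hgB, hy, map_zero]
      have h2 : f ((b.equivFun.symm y : V) : m → ℝ) = 0 := congrArg Subtype.val h1
      have h3 := hker _ (b.equivFun.symm y).2 h2
      have h4 : b.equivFun.symm y = 0 := Subtype.ext h3
      exact (LinearEquiv.map_eq_zero_iff _).1 h4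
    intro y z hyz
    have h5 : (y - z) ᵥ* B = 0 := by
      rw [Matrix.sub_vecMul]
      exact sub_eq_zero.2 hyz
    exact sub_eq_zero.1 (h0 _ h5)
  refine ⟨q, B, part_of_fit hBu J hJinj hJT fun w => ?_⟩
  have h1 : w ∈ LinearMap.ker (f ^ D) ⊔ V := by
    rw [hD.sup_eq_top]; trivial
  obtain ⟨x, hx, v, hv, hxv⟩ := Submodule.mem_sup.1 h1
  refine ⟨b.equivFun ⟨v, hv⟩, D, ?_⟩
  have h2 : J (b.equivFun ⟨v, hv⟩) = v := by
    show ((b.equivFun.symm (b.equivFun ⟨v, hv⟩) : V) : m → ℝ) = v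
    rw [LinearEquiv.symm_apply_apply]
  rw [h2, ← hxv, add_sub_cancel_right, ← Pool.Agent.Lib.MP699d82.vecMul_pow_apply]
  exact LinearMap.mem_ker.1 hx

/-! ### Eigenvalues -/

private lemma roots_nil {p : ℕ} {N : Matrix (Fin p) (Fin p) ℝ} (hN : IsNilpotent N) :
    (N.map (algebraMap ℝ ℂ)).charpoly.roots.filter (fun z => z ≠ 0) = 0 := by
  rw [Multiset.filter_eq_nil]
  intro z hz hz0
  have hNc : IsNilpotent (N.map (algebraMap ℝ ℂ)) := by
    have := hN.map ((algebraMap ℝ ℂ).mapMatrix : Matrix (Fin p) (Fin p) ℝ →+* _)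
    exact this
  have h1 := Matrix.mem_spectrum_of_isRoot_charpoly ((Polynomial.mem_roots'.1 hz).2)
  rw [spectrum.mem_iff] at h1
  apply h1
  have h2 : IsUnit (algebraMap ℂ (Matrix (Fin p) (Fin p) ℂ) z) :=
    (isUnit_iff_ne_zero.2 hz0).map _
  have h3 : IsNilpotent (-(N.map (algebraMap ℝ ℂ))) := hNc.neg
  rw [sub_eq_add_neg]
  exact h3.isUnit_add_left_of_commute h2 (Algebra.commutes _ _).symm

private lemma filter_roots_mul_X {f : ℂ[X]} (hf : f ≠ 0) (a : ℕ) :
    (X ^ a * f).roots.filter (fun z => z ≠ 0) = f.roots.filter (fun z => z ≠ 0) := by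
  rw [Polynomial.roots_mul (mul_ne_zero (pow_ne_zero _ X_ne_zero) hf), Multiset.filter_add,
    Polynomial.roots_X_pow]
  have : (a • ({0} : Multiset ℂ)).filter (fun z => z ≠ 0) = 0 := by
    rw [Multiset.filter_eq_nil]
    intro z hz
    have := Multiset.mem_of_mem_nsmul hz
    rw [Multiset.mem_singleton] at this
    simp [this]
  rw [this, zero_add]

private lemma eig_part {k : Type u} [Fintype k] [DecidableEq k] {n : Type v} [Fintype n]
    [DecidableEq n] {B : Matrix k k ℝ} {A : Matrix n n ℝ} (h : IsNonsingularPart B A) :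
    nonzeroEigenvalues A = nonzeroEigenvalues B := by
  obtain ⟨-, p, N, P, Q, hN, -, hQP, hA⟩ := h
  have hne : ∀ {i : Type (max u v)} [Fintype i] [DecidableEq i] (M : Matrix i i ℂ),
    M.charpoly ≠ 0 := fun M => M.charpoly_monic.ne_zero
  set Pc := P.map (algebraMap ℝ ℂ) with hPc
  set Qc := Q.map (algebraMap ℝ ℂ) with hQc
  set Ac := A.map (algebraMap ℝ ℂ) with hAc
  have h1 : Qc * Pc = 1 := by
    rw [hQc, hPc, ← Matrix.map_mul, hQP]
    simp
  have h2 : Pc * Ac * Qc = Matrix.fromBlocks (B.map (algebraMap ℝ ℂ)) 0 0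
      (N.map (algebraMap ℝ ℂ)) := by
    rw [hPc, hAc, hQc, ← Matrix.map_mul, ← Matrix.map_mul, hA, Matrix.fromBlocks_map]
    simp
  have h3 := Matrix.charpoly_mul_comm' (Pc * Ac) Qc
  have h4 : Qc * (Pc * Ac) = Ac := by rw [← Matrix.mul_assoc, h1, Matrix.one_mul]
  rw [h4, h2, Matrix.charpoly_fromBlocks_zero₁₂] at h3
  have hB0 : (B.map (algebraMap ℝ ℂ)).charpoly ≠ 0 := (Matrix.charpoly_monic _).ne_zero
  have hN0 : (N.map (algebraMap ℝ ℂ)).charpoly ≠ 0 := (Matrix.charpoly_monic _).ne_zero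
  have hA0 : Ac.charpoly ≠ 0 := (Matrix.charpoly_monic _).ne_zero
  have h5 := congrArg (fun f : ℂ[X] => f.roots.filter (fun z => z ≠ 0)) h3
  beta_reduce at h5
  rw [filter_roots_mul_X (mul_ne_zero hB0 hN0), filter_roots_mul_X hA0,
    Polynomial.roots_mul (mul_ne_zero hB0 hN0), Multiset.filter_add, roots_nil hN, add_zero] at h5
  exact h5.symm

private lemma sum_filter_pow (s : Multiset ℂ) {n : ℕ} (hn : 1 ≤ n) :
    (s.map fun l => l ^ n).sum = ((s.filter fun z => z ≠ 0).map fun l => l ^ n).sum := by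
  induction s using Multiset.induction_on with
  | empty => simp
  | cons a s ih =>
    rw [Multiset.map_cons, Multiset.sum_cons, ih]
    by_cases ha : a = 0
    · rw [Multiset.filter_cons_of_neg (p := fun z : ℂ => z ≠ 0) s (by simpa using ha), ha, zero_pow (by omega), zero_add]
    · rw [Multiset.filter_cons_of_pos (p := fun z : ℂ => z ≠ 0) s ha, Multiset.map_cons, Multiset.sum_cons]

private lemma trace_eq {q : ℕ} (B : Matrix (Fin q) (Fin q) ℝ) {n : ℕ} (hn : 1 ≤ n) :
    (B ^ n).trace = (powerTrace (nonzeroEigenvalues B) n).re := by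
  have h1 : ((B ^ n).trace : ℂ) = powerTrace (nonzeroEigenvalues B) n := by
    set Bc := B.map (algebraMap ℝ ℂ) with hBc
    have h2 : ((B ^ n).trace : ℂ) = (Bc ^ n).trace := by
      have h3 : Bc ^ n = (B ^ n).map (algebraMap ℝ ℂ) := by
        rw [hBc]
        exact (map_pow ((algebraMap ℝ ℂ).mapMatrix : Matrix (Fin q) (Fin q) ℝ →+* _) B n).symm
      rw [h3, Matrix.trace, Matrix.trace]
      simp
    rw [h2]
    have h4 := Pool.Agent.KExp.trace_pow_roots (Matrix.toLin' Bc) n
    rw [← Matrix.toLin'_pow, Matrix.trace_toLin'_eq, Matrix.charpoly_toLin'] at h4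
    rw [h4, powerTrace, nonzeroEigenvalues, ← hBc]
    exact sum_filter_pow _ hn
  rw [← h1, Complex.ofReal_re]

private lemma part_fin {q : ℕ} {B : Matrix (Fin q) (Fin q) ℝ} (hB : IsUnit B)
    (h : NecessaryConditions (nonzeroEigenvalues B)) :
    ∃ (p : ℕ) (A : Matrix (Fin q ⊕ Fin p) (Fin q ⊕ Fin p) ℝ), A.IsPrimitive ∧ SE B A := by
  obtain ⟨-, ⟨r, hr, hmem, hlt⟩, htr, htr'⟩ := h
  have hmap : B.charpoly.map (algebraMap ℝ ℂ) = (B.map (algebraMap ℝ ℂ)).charpoly :=
    (Matrix.charpoly_map B (algebraMap ℝ ℂ)).symm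
  have hrc : (r : ℂ) ≠ 0 := by exact_mod_cast hr.ne'
  have hres := Pool.Agent.Lib.MP699d82.main_result B
    (((Matrix.isUnit_iff_isUnit_det B).1 hB).ne_zero)
    ⟨r, hr, by
      rw [hmap]
      have h1 : (nonzeroEigenvalues B).count (r : ℂ) =
          (B.map (algebraMap ℝ ℂ)).charpoly.roots.count (r : ℂ) := by
        rw [nonzeroEigenvalues, Multiset.count_filter_of_pos (p := fun z : ℂ => z ≠ 0) hrc]
      rw [← h1]
      have h2 : 1 ≤ (nonzeroEigenvalues B).count (r : ℂ) := Multiset.one_le_count_iff_mem.2 hmem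
      have h3 : ((nonzeroEigenvalues B).erase (r : ℂ)).count (r : ℂ) = 0 := by
        rw [Multiset.count_eq_zero]
        intro h4
        have h5 := hlt _ h4
        rw [Complex.norm_real, Real.norm_of_nonneg hr.le] at h5
        exact lt_irrefl _ h5
      rw [Multiset.count_erase_self] at h3
      omega, by
      intro z hz hzr
      rw [hmap] at hz
      by_cases hz0 : z = 0
      · rw [hz0, norm_zero]; exact hr
      · refine hlt z ((Multiset.mem_erase_of_ne hzr).2 ?_)
        rw [nonzeroEigenvalues, Multiset.mem_filter]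
        exact ⟨hz, hz0⟩⟩
    (by
      intro n hn
      rw [trace_eq B hn]
      exact htr n hn)
    (by
      intro n m hn hm hpos
      rw [trace_eq B hn] at hpos
      rw [trace_eq B (Nat.mul_pos hn hm)]
      exact htr' n m hn hm hpos)
  obtain ⟨p, N, A, P, Q, hN, hA, ⟨m, hm, hAm⟩, hPQ, hPAQ⟩ := hres
  exact ⟨p, A, ⟨hA, ⟨m, hm, hAm⟩⟩, se_of_part ⟨hB, p, N, P, Q, hN, hPQ, mul_eq_one_comm.1 hPQ, hPAQ⟩⟩

private lemma eig_reindex {k : Type u} [Fintype k] [DecidableEq k] (B : Matrix k k ℝ) {q : ℕ}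
    (e : k ≃ Fin q) : nonzeroEigenvalues (Matrix.reindex e e B) = nonzeroEigenvalues B := by
  rw [nonzeroEigenvalues, nonzeroEigenvalues]
  have h1 : (Matrix.reindex e e B).map (algebraMap ℝ ℂ) =
      Matrix.reindex e e (B.map (algebraMap ℝ ℂ)) := by
    ext i j; rfl
  rw [h1, Matrix.charpoly_reindex]

/-- Let `B` be a real square matrix (with any finite index type) whose nonzero eigenvalues meet the
necessary conditions of the Spectral Conjecture over `ℝ`.
(1) If `B` is invertible then for all sufficiently large `s` there is a primitive `s × s` matrix `A`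
such that `B` is a nonsingular part of `A`.
(2) In general `B` has a nonsingular part `B'`, and for all sufficiently large `s` there is a
primitive `s × s` matrix `A` such that `B'` is a nonsingular part of `A`. -/
theorem result {k : Type u} [Fintype k] [DecidableEq k] (B : Matrix k k ℝ)
    (hB : NecessaryConditions (nonzeroEigenvalues B)) :
    (IsUnit B → ∃ s₀ : ℕ, ∀ s : ℕ, s₀ ≤ s → ∃ A : Matrix (Fin s) (Fin s) ℝ,
      A.IsPrimitive ∧ IsNonsingularPart B A) ∧
    (∃ (q : ℕ) (B' : Matrix (Fin q) (Fin q) ℝ), IsNonsingularPart B' B ∧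
      ∃ s₀ : ℕ, ∀ s : ℕ, s₀ ≤ s → ∃ A : Matrix (Fin s) (Fin s) ℝ,
        A.IsPrimitive ∧ IsNonsingularPart B' A) := by
  have key : ∀ {q : ℕ} (B' : Matrix (Fin q) (Fin q) ℝ), IsUnit B' →
      NecessaryConditions (nonzeroEigenvalues B') → ∃ s₀ : ℕ, ∀ s : ℕ, s₀ ≤ s →
        ∃ A : Matrix (Fin s) (Fin s) ℝ, A.IsPrimitive ∧ IsNonsingularPart B' A := by
    intro q B' hu hc
    obtain ⟨p, A, hA, hse⟩ := part_fin hu hc
    have hq : Nonempty (Fin q) := by
      obtain ⟨r, -, hmem, -⟩ := hc.perron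
      by_contra hemp
      have : IsEmpty (Fin q) := not_nonempty_iff.1 hemp
      have h1 := Polynomial.card_roots' (B'.map (algebraMap ℝ ℂ)).charpoly
      rw [Matrix.charpoly_natDegree_eq_dim, Fintype.card_eq_zero] at h1
      have h2 : (r : ℂ) ∈ (B'.map (algebraMap ℝ ℂ)).charpoly.roots :=
        Multiset.mem_of_mem_filter hmem
      rw [Multiset.card_eq_zero.1 (Nat.le_zero.1 h1)] at h2
      exact Multiset.notMem_zero _ h2
    have : Nonempty (Fin q ⊕ Fin p) := ⟨Sum.inl hq.some⟩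
    exact ⟨Fintype.card (Fin q ⊕ Fin p), fun s hs => all_sizes hu hA hse s hs⟩
  refine ⟨fun hu => ?_, ?_⟩
  · have hu' : IsUnit (Matrix.reindex (Fintype.equivFin k) (Fintype.equivFin k) B) := by
      rw [Matrix.isUnit_iff_isUnit_det] at hu ⊢
      rwa [Matrix.det_reindex_self]
    obtain ⟨s₀, h⟩ := key _ hu' (by rw [eig_reindex]; exact hB)
    refine ⟨s₀, fun s hs => ?_⟩
    obtain ⟨A, hA, hp⟩ := h s hs
    exact ⟨A, hA, part_of_reindex _ hp⟩
  · obtain ⟨q, B', hp⟩ := exists_part B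
    exact ⟨q, B', hp, key B' hp.1 (by rw [← eig_part hp]; exact hB)⟩

end Pool.Agent.Results.MP_699d82_al.PrimitiveNonsingularPart
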